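import Pool.Agent.H19.Sok

/-! The `ω`-modification of a compact space of finite dispersion index is a Sokolov space. -/

namespace Pool.Agent.Results.MP_1116a9_gt.Sokolov

open Set

universe u

/-- The subspace `Y` of `X` has a countable network. -/
def CountableNetwork {X : Type u} [TopologicalSpace X] (Y : Set X) : Prop :=
  ∃ N : Set (Set Y), N.Countable ∧ ∀ U : Set Y, IsOpen U → ∃ N' ⊆ N, U = ⋃₀ N'

/-- Sokolov spaces. -/
def IsSokolov (X : Type u) [TopologicalSpace X] : Prop :=
  ∀ F : (n : ℕ) → Set (Fin n → X), (∀ n, IsClosed (F n)) →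
    ∃ f : X → X, Continuous f ∧ CountableNetwork (range f) ∧
      ∀ n : ℕ, ∀ x ∈ F n, (fun i => f (x i)) ∈ F n

/-- The `ω`-modification: the topology generated by the `Gδ`-sets. -/
def omegaMod (K : Type u) [TopologicalSpace K] : TopologicalSpace K :=
  TopologicalSpace.generateFrom {S : Set K | IsGδ S}

/-- The finite Cantor-Bendixson derivatives. -/
def deriv (K : Type u) [TopologicalSpace K] : ℕ → Set K
  | 0 => univ
  | n + 1 => {x | x ∈ deriv K n ∧ ¬ ∃ U : Set K, IsOpen U ∧ U ∩ deriv K n = {x}}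

theorem result (K : Type u) [TopologicalSpace K] [CompactSpace K] [T2Space K]
    (h : ∃ n, deriv K n = ∅) : @IsSokolov K (omegaMod K) := by
  classical
  intro F hF
  have hs : ∀ S : Set K, S.Nonempty → ∃ x ∈ S, ∃ U : Set K, IsOpen U ∧ U ∩ S = {x} := by
    intro S hS
    obtain ⟨n, hn⟩ := h
    have h1 : ∃ n, ¬ S ⊆ deriv K n := ⟨n, by rw [hn, subset_empty_iff]; exact hS.ne_empty⟩
    have h2 := Nat.find_spec h1
    rcases hk : Nat.find h1 with _ | k
    · rw [hk] at h2; exact absurd (subset_univ S) h2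
    · rw [hk] at h2
      have h3 : S ⊆ deriv K k := not_not.1 (Nat.find_min h1 (by omega))
      obtain ⟨x, hx, hx'⟩ := not_subset.1 h2
      obtain ⟨U, hU, hUx⟩ : ∃ U : Set K, IsOpen U ∧ U ∩ deriv K k = {x} := by
        by_contra h4
        exact hx' ⟨h3 hx, h4⟩
      refine ⟨x, hx, U, hU, Subset.antisymm (hUx ▸ inter_subset_inter_right _ h3) ?_⟩
      exact singleton_subset_iff.2 ⟨(hUx.ge (mem_singleton x)).1, hx⟩
  obtain ⟨f, hf, hc, hfF⟩ := Pool.Agent.H19.Sok.sokolov (tX := omegaMod K) (Equiv.refl K) hs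
    (by
      unfold omegaMod
      congr 1
      ext S
      simp [isGδ_iff_eq_iInter_nat]) F hF
  refine ⟨f, hf, ⟨range fun x => {x}, ?_, fun U _ => ⟨(fun x => {x}) '' U,
    image_subset_range _ _, by simp⟩⟩, hfF⟩
  haveI := hc.to_subtype
  exact countable_range _

end Pool.Agent.Results.MP_1116a9_gt.Sokolov
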